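import Pool.Agent.GT.StmtsC

open Finset

namespace Pool.Agent.GT.H80

noncomputable section

/-- the factor at `x` -/
def wf {γ : Type} [DecidableEq γ] (E D : Finset γ) (w : γ → ℝ) (x : γ) : ℝ :=
  if x ∈ E then (if x ∈ D then 1 else 0) else (if x ∈ D then w x else 1)

theorem wf_prod {γ : Type} [DecidableEq γ] (S E D : Finset γ) (w : γ → ℝ) (hE : E ⊆ S)
    (hD : D ⊆ S) : (if E ⊆ D then ∏ x ∈ D \ E, w x else 0) = ∏ x ∈ S, wf E D w x := by
  by_cases h : E ⊆ D
  · rw [if_pos h]
    have h1 : ∀ x ∈ S, wf E D w x = if x ∈ D \ E then w x else 1 := by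
      intro x _
      unfold wf
      by_cases hxE : x ∈ E
      · have hxD : x ∈ D := h hxE
        simp [hxE, hxD]
      · by_cases hxD : x ∈ D <;> simp [hxE, hxD]
    rw [Finset.prod_congr rfl h1, Finset.prod_ite_mem]
    have h2 : S ∩ (D \ E) = D \ E :=
      Finset.inter_eq_right.2 fun x hx => hD (Finset.mem_sdiff.1 hx).1
    rw [h2]
  · rw [if_neg h]
    obtain ⟨x, hxE, hxD⟩ := Finset.not_subset.1 h
    symm
    refine Finset.prod_eq_zero (hE hxE) ?_
    simp [wf, hxE, hxD]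

theorem mem_tU {σ : Type} [DecidableEq σ] {P : Finset ℕ} (U : ↥P → Finset σ) (s : σ) (p : ↥P) :
    (p : ℕ) ∈ tU U s ↔ s ∈ U p := by
  unfold tU
  rw [Finset.mem_map]
  constructor
  · rintro ⟨q, hq, hqp⟩
    have hqp' : q = p := Subtype.ext hqp
    subst hqp'
    simpa using hq
  · intro h
    exact ⟨p, by simpa using h, rfl⟩

theorem tU_sub {σ : Type} [DecidableEq σ] {P : Finset ℕ} (U : ↥P → Finset σ) (s : σ) :
    tU U s ⊆ P := by
  intro x hx
  unfold tU at hx
  obtain ⟨q, _, hq⟩ := Finset.mem_map.1 hx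
  rw [← hq]
  exact q.2

variable {σ : Type} [Fintype σ] [DecidableEq σ]

theorem mem_TT (A B : σ → Finset ℕ) (p : ℕ) (s : σ) : s ∈ TT A B p ↔ p ∈ A s ∪ B s := by
  simp [TT]

theorem alpha_sum (T : Finset σ) (c : ℝ) (b : Finset σ → ℝ) :
    ∑ U ∈ T.powerset, b U * c ^ (T \ U).card =
      ∑ U : Finset σ, b U * ∏ s, wf U T (fun _ => c) s := by
  have h1 : ∀ U : Finset σ, b U * ∏ s, wf U T (fun _ => c) s =
      if U ∈ T.powerset then b U * c ^ (T \ U).card else 0 := by
    intro U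
    rw [← wf_prod univ U T (fun _ => c) (Finset.subset_univ _) (Finset.subset_univ _)]
    by_cases h : U ⊆ T
    · rw [if_pos h, if_pos (Finset.mem_powerset.2 h), Finset.prod_const]
    · rw [if_neg h, if_neg (fun h' => h (Finset.mem_powerset.1 h')), mul_zero]
  rw [Finset.sum_congr rfl fun U _ => h1 U, Finset.sum_ite_mem, Finset.univ_inter]

theorem sums_prod (P : Finset ℕ) (F : σ → Finset ℕ → Finset ℕ → ℝ) :
    ∑ A ∈ Fintype.piFinset (fun _ : σ => P.powerset),
      ∑ B ∈ Fintype.piFinset (fun _ : σ => P.powerset), ∏ s, F s (A s) (B s) =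
    ∏ s, ∑ a ∈ P.powerset, ∑ b ∈ P.powerset, F s a b := by
  rw [Finset.prod_univ_sum]
  refine Finset.sum_congr rfl fun A _ => ?_
  rw [Finset.prod_univ_sum]

theorem c_exa : ExaStmt := by
  intro σ _ _ P R α β _ hα
  -- the product over `p` for fixed `A`, `B`
  have key : ∀ A ∈ Fintype.piFinset (fun _ : σ => P.powerset),
      ∀ B ∈ Fintype.piFinset (fun _ : σ => P.powerset),
      ∏ p ∈ P, α p (TT A B p) = ∑ U : ↥P → Finset σ, (∏ p : ↥P, β p (U p)) *
        ∏ s, (if tU U s ⊆ A s ∪ B s then iw ((A s ∪ B s) \ tU U s) else 0) := by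
    intro A hA B hB
    have hsub : ∀ s, A s ∪ B s ⊆ P := fun s => Finset.union_subset
      (Finset.mem_powerset.1 (Fintype.mem_piFinset.1 hA s))
      (Finset.mem_powerset.1 (Fintype.mem_piFinset.1 hB s))
    have h1 : ∏ p ∈ P, α p (TT A B p) = ∏ p : ↥P, ∑ U : Finset σ,
        β p U * ∏ s, wf U (TT A B p) (fun _ => 1 / ((p : ℕ) : ℝ)) s := by
      rw [← Finset.prod_coe_sort P (fun p => α p (TT A B p))]
      refine Finset.prod_congr rfl fun p _ => ?_
      rw [hα p p.2, alpha_sum]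
    rw [h1, Finset.prod_univ_sum, Fintype.piFinset_univ]
    refine Finset.sum_congr rfl fun U _ => ?_
    rw [Finset.prod_mul_distrib, Finset.prod_comm]
    refine congrArg (fun t => (∏ p : ↥P, β p (U p)) * t) ?_
    refine Finset.prod_congr rfl fun s _ => ?_
    have h2 := wf_prod P (tU U s) (A s ∪ B s) (fun p => 1 / (p : ℝ)) (tU_sub U s) (hsub s)
    unfold iw
    rw [h2, ← Finset.prod_coe_sort P]
    refine Finset.prod_congr rfl fun p _ => ?_
    unfold wf
    simp only [mem_tU, mem_TT]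
  have h3 : brk P R (fun A B : σ → Finset ℕ => ∏ p ∈ P, α p (TT A B p)) =
      GG P R ^ Fintype.card σ * ∑ A ∈ Fintype.piFinset (fun _ : σ => P.powerset),
        ∑ B ∈ Fintype.piFinset (fun _ : σ => P.powerset), ∑ U : ↥P → Finset σ,
          (∏ p : ↥P, β p (U p)) * ∏ s, (if tU U s ⊆ A s ∪ B s then
            lam P R (A s) * lam P R (B s) * iw ((A s ∪ B s) \ tU U s) else 0) := by
    unfold brk
    congr 1
    refine Finset.sum_congr rfl fun A hA => Finset.sum_congr rfl fun B hB => ?_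
    beta_reduce
    rw [key A hA B hB, Finset.mul_sum]
    refine Finset.sum_congr rfl fun U _ => ?_
    rw [mul_left_comm, ← Finset.prod_mul_distrib]
    congr 1
    refine Finset.prod_congr rfl fun s _ => ?_
    rw [mul_ite, mul_zero]
  rw [h3]
  have h4 : ∑ A ∈ Fintype.piFinset (fun _ : σ => P.powerset),
        ∑ B ∈ Fintype.piFinset (fun _ : σ => P.powerset), ∑ U : ↥P → Finset σ,
          (∏ p : ↥P, β p (U p)) * ∏ s, (if tU U s ⊆ A s ∪ B s then
            lam P R (A s) * lam P R (B s) * iw ((A s ∪ B s) \ tU U s) else 0) =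
      ∑ U : ↥P → Finset σ, (∏ p : ↥P, β p (U p)) * ∏ s, SS P R (tU U s) := by
    have h5 : ∀ A ∈ Fintype.piFinset (fun _ : σ => P.powerset),
        ∑ B ∈ Fintype.piFinset (fun _ : σ => P.powerset), ∑ U : ↥P → Finset σ,
          (∏ p : ↥P, β p (U p)) * ∏ s, (if tU U s ⊆ A s ∪ B s then
            lam P R (A s) * lam P R (B s) * iw ((A s ∪ B s) \ tU U s) else 0) =
        ∑ U : ↥P → Finset σ, ∑ B ∈ Fintype.piFinset (fun _ : σ => P.powerset),
          (∏ p : ↥P, β p (U p)) * ∏ s, (if tU U s ⊆ A s ∪ B s then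
            lam P R (A s) * lam P R (B s) * iw ((A s ∪ B s) \ tU U s) else 0) :=
      fun A _ => Finset.sum_comm
    rw [Finset.sum_congr rfl h5, Finset.sum_comm]
    refine Finset.sum_congr rfl fun U _ => ?_
    have h6 := sums_prod (σ := σ) P (fun s a b => if tU U s ⊆ a ∪ b then
      lam P R a * lam P R b * iw ((a ∪ b) \ tU U s) else 0)
    unfold SS
    rw [← h6, Finset.mul_sum]
    refine Finset.sum_congr rfl fun A _ => ?_
    rw [Finset.mul_sum]
  rw [h4, Finset.mul_sum]
  refine Finset.sum_congr rfl fun U _ => ?_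
  rw [Finset.prod_mul_distrib, Finset.prod_const, Finset.card_univ]
  ring

end

end Pool.Agent.GT.H80
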