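import Pool.Agent.GT.StmtsD

namespace Pool.Agent.GT.D.H80

open Pool.Agent.GT.D

theorem d_rea : ReaStmt := by
  intro e r s a ht ha
  have hp : 0 < Xc e r s 0 * Xc e r s 1 * Xc e r s 2 := by
    obtain ⟨q, hq⟩ := ht.sq
    have h0 : Xc e r s 0 * Xc e r s 1 * Xc e r s 2 ≠ 0 :=
      mul_ne_zero (mul_ne_zero (ht.ne 0) (ht.ne 1)) (ht.ne 2)
    rw [hq] at h0 ⊢
    exact lt_of_le_of_ne (mul_self_nonneg q) (Ne.symm h0)
  have hp' : 0 < Xc e r s a * (Xc e r s (a + 1) * Xc e r s (a + 2)) := by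
    have h1 : Xc e r s a * (Xc e r s (a + 1) * Xc e r s (a + 2)) =
        Xc e r s 0 * Xc e r s 1 * Xc e r s 2 := by
      fin_cases a
      · show Xc e r s 0 * (Xc e r s 1 * Xc e r s 2) = _
        ring
      · show Xc e r s 1 * (Xc e r s 2 * Xc e r s 0) = _
        ring
      · show Xc e r s 2 * (Xc e r s 0 * Xc e r s 1) = _
        ring
    rw [h1]
    exact hp
  have hle : ∀ j, Xc e r s j ≤ Xc e r s a := by
    intro j
    unfold Xc
    have := mul_le_mul_of_nonneg_right (ha j) (sq_nonneg s)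
    linarith
  have hb := ht.ne (a + 1)
  have hc := ht.ne (a + 2)
  have hbl := hle (a + 1)
  have hcl := hle (a + 2)
  have hpos : 0 < Xc e r s a := by
    by_contra h
    have h1 : Xc e r s a ≤ 0 := not_lt.1 h
    have h2 : Xc e r s (a + 1) ≤ 0 := le_trans hbl h1
    have h3 : Xc e r s (a + 2) ≤ 0 := le_trans hcl h1
    have h4 : 0 ≤ Xc e r s (a + 1) * Xc e r s (a + 2) := mul_nonneg_of_nonpos_of_nonpos h2 h3
    have h5 : Xc e r s a * (Xc e r s (a + 1) * Xc e r s (a + 2)) ≤ 0 :=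
      mul_nonpos_of_nonpos_of_nonneg h1 h4
    exact absurd hp' (not_lt.2 h5)
  have hbc : 0 < Xc e r s (a + 1) * Xc e r s (a + 2) := by
    rcases lt_trichotomy 0 (Xc e r s (a + 1) * Xc e r s (a + 2)) with h | h | h
    · exact h
    · rw [← h, mul_zero] at hp'
      exact absurd hp' (lt_irrefl _)
    · exact absurd hp' (not_lt.2 (le_of_lt (mul_neg_of_pos_of_neg hpos h)))
  constructor
  · unfold sg
    rw [if_neg (not_lt.2 hpos.le)]
  · unfold sg
    rcases lt_or_gt_of_ne hb with h | h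
    · have h2 : Xc e r s (a + 2) < 0 := by
        rcases lt_or_gt_of_ne hc with h' | h'
        · exact h'
        · exact absurd hbc (not_lt.2 (le_of_lt (mul_neg_of_neg_of_pos h h')))
      rw [if_pos h, if_pos h2]
    · have h2 : 0 < Xc e r s (a + 2) := by
        rcases lt_or_gt_of_ne hc with h' | h'
        · exact absurd hbc (not_lt.2 (le_of_lt (mul_neg_of_pos_of_neg h h')))
        · exact h'
      rw [if_neg (not_lt.2 h.le), if_neg (not_lt.2 h2.le)]

end Pool.Agent.GT.D.H80
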